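import Pool.Agent.W117.GS.Stm

/-!
# GS-CO: functions with bounded derivatives, compositions and pairs
-/

set_option autoImplicit false

open scoped ContDiff

namespace Pool.Agent.W120.GS.CO

open Pool.Agent.W117.GS

theorem co : PropCO := by
  intro V W _ _ _ _ _ n F f hF hf
  obtain ⟨hf1, hf2⟩ := hf
  have hFn : ∀ m : ℕ, ContDiff ℝ m F := fun m => hF.of_le (by exact_mod_cast le_top)
  refine ⟨(hFn n).comp hf1, ?_⟩
  intro i hi
  choose! B hB using hf2
  -- a common bound
  obtain ⟨D, hD1, hD⟩ : ∃ D : ℝ, 1 ≤ D ∧ ∀ j ≤ n, B j ≤ D := by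
    refine ⟨1 + ∑ j ∈ Finset.range (n + 1), |B j|, ?_, ?_⟩
    · have : 0 ≤ ∑ j ∈ Finset.range (n + 1), |B j| := Finset.sum_nonneg fun _ _ => abs_nonneg _
      linarith
    · intro j hj
      have h1 : |B j| ≤ ∑ j ∈ Finset.range (n + 1), |B j| :=
        Finset.single_le_sum (f := fun j => |B j|) (fun _ _ => abs_nonneg _)
          (Finset.mem_range.2 (by omega))
      have h2 := le_abs_self (B j)
      linarith
  have hball : ∀ x, f x ∈ Metric.closedBall (0 : V) D := by
    intro x
    rw [mem_closedBall_zero_iff]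
    have := hB 0 (Nat.zero_le n) x
    rw [norm_iteratedFDeriv_zero] at this
    exact this.trans (hD 0 (Nat.zero_le n))
  have hA : ∀ j : ℕ, ∃ A, ∀ v ∈ Metric.closedBall (0 : V) D, ‖iteratedFDeriv ℝ j F v‖ ≤ A := by
    intro j
    have hc : Continuous (iteratedFDeriv ℝ j F) :=
      (hFn j).continuous_iteratedFDeriv (by exact_mod_cast le_rfl)
    haveI : ProperSpace V := FiniteDimensional.proper_real V
    obtain ⟨A, hA⟩ := (isCompact_closedBall (0 : V) D).exists_bound_of_continuousOn hc.continuousOn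
    exact ⟨A, hA⟩
  choose A hA using hA
  refine ⟨i.factorial * (∑ j ∈ Finset.range (i + 1), |A j|) * D ^ i, fun x => ?_⟩
  have h1 := norm_iteratedFDeriv_comp_le (n := i) (N := (i : ℕ∞ω)) (hFn i)
    (hf1.of_le (by exact_mod_cast hi)) le_rfl x
    (C := ∑ j ∈ Finset.range (i + 1), |A j|) (D := D) (by
      intro j hj
      have h2 : |A j| ≤ ∑ j ∈ Finset.range (i + 1), |A j| :=
        Finset.single_le_sum (f := fun j => |A j|) (fun _ _ => abs_nonneg _)
          (Finset.mem_range.2 (by omega))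
      exact ((hA j _ (hball x)).trans (le_abs_self _)).trans h2) (by
      intro j hj1 hj
      have h2 : D ≤ D ^ j := by
        calc D = D ^ 1 := (pow_one D).symm
          _ ≤ D ^ j := pow_le_pow_right₀ hD1 hj1
      exact ((hB j (hj.trans hi) x).trans (hD j (hj.trans hi))).trans h2)
  exact h1

theorem pa : PropPA := by
  intro V W _ _ _ _ n f g hf hg
  refine ⟨hf.1.prodMk hg.1, ?_⟩
  intro i hi
  obtain ⟨A, hA⟩ := hf.2 i hi
  obtain ⟨B, hB⟩ := hg.2 i hi
  refine ⟨max A B, fun x => ?_⟩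
  have h1 := iteratedFDeriv_prodMk (𝕜 := ℝ) (x := x) (i := i) (hf.1.contDiffAt) (hg.1.contDiffAt)
    (by exact_mod_cast hi)
  have h2 : iteratedFDeriv ℝ i (fun x => (f x, g x)) x =
      (iteratedFDeriv ℝ i f x).prod (iteratedFDeriv ℝ i g x) := h1
  rw [h2, ContinuousMultilinearMap.opNorm_prod]
  exact max_le_max (hA x) (hB x)

theorem main : PropCO ∧ PropPA := ⟨co, pa⟩

end Pool.Agent.W120.GS.CO
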