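import Pool.Agent.W117.GS.Stm

/-!
# GS-SB: the constant subsolution
-/

set_option autoImplicit false

namespace Pool.Agent.W120.GS.SB

open Pool.Agent.W117.GS

theorem sp_nonneg (p z : ℝ × ℝ) : 0 ≤ sp p z := by
  unfold sp; positivity

theorem cmp (p q : ℝ × ℝ) (M : ℕ) : ∃ C : ℝ, 1 ≤ C ∧ ∀ z, 1 + sp q z ^ M ≤ C * (1 + sp p z ^ M) := by
  refine ⟨1 + 2 ^ (M - 1) * (2 * sp p q) ^ M + 2 ^ (M - 1) * 2 ^ M, ?_, ?_⟩
  · have h1 : 0 ≤ 2 ^ (M - 1) * (2 * sp p q) ^ M := by
      have := sp_nonneg p q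
      positivity
    have h2 : (0 : ℝ) ≤ 2 ^ (M - 1) * 2 ^ M := by positivity
    linarith
  · intro z
    have hp := sp_nonneg p z
    have hq := sp_nonneg q z
    have hd := sp_nonneg p q
    have h1 : sp q z ≤ 2 * sp p z + 2 * sp p q := by
      unfold sp
      nlinarith [sq_nonneg ((z.1 - p.1) + (q.1 - p.1)), sq_nonneg ((z.2 - p.2) + (q.2 - p.2))]
    have h2 : sp q z ^ M ≤ 2 ^ (M - 1) * ((2 * sp p z) ^ M + (2 * sp p q) ^ M) :=
      (pow_le_pow_left₀ hq h1 M).trans (add_pow_le (by positivity) (by positivity) M)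
    rw [mul_pow 2 (sp p z)] at h2
    have h3 : 0 ≤ 2 ^ (M - 1) * (2 * sp p q) ^ M := by positivity
    have h4 : (0 : ℝ) ≤ 2 ^ (M - 1) * 2 ^ M := by positivity
    have h5 : 0 ≤ sp p z ^ M := by positivity
    nlinarith [mul_nonneg h3 h5]

theorem main : PropSB := by
  intro a S n M ha hM hN
  have hM0 : (0 : ℝ) < M := by exact_mod_cast hM
  choose C1 hC1 hC using fun p q => cmp p q M
  let L : ℝ × ℝ → ℝ × ℝ → ℝ := fun p z => Real.log (1 + sp p z ^ M)
  have hL0 : ∀ p z, 0 ≤ L p z := fun p z => Real.log_nonneg (by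
    have := pow_nonneg (sp_nonneg p z) M
    linarith)
  have hLe : ∀ p z, Real.exp (L p z) = 1 + sp p z ^ M := fun p z => Real.exp_log (by
    have := pow_nonneg (sp_nonneg p z) M
    linarith)
  have hLL : ∀ p q z, L q z ≤ Real.log (C1 p q) + L p z := by
    intro p q z
    have h1 := pow_nonneg (sp_nonneg q z) M
    have h2 := pow_nonneg (sp_nonneg p z) M
    have h3 := hC1 p q
    simp only [L]
    rw [← Real.log_mul (by linarith) (by linarith)]
    exact Real.log_le_log (by linarith) (hC p q z)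
  -- each term
  have hterm : ∀ p z, 4 * M * sp p z ^ (M - 1) / (1 + sp p z ^ M) ^ 2 ≤
      4 * M * Real.exp (-((1 + 1 / M) * L p z)) := by
    intro p z
    have h0 := sp_nonneg p z
    have h1 : sp p z ^ (M - 1) ≤ Real.exp ((1 - 1 / M) * L p z) := by
      rcases Nat.lt_or_ge 1 M with h | h
      · rcases h0.eq_or_lt with e | e
        · rw [← e, zero_pow (by omega)]
          exact (Real.exp_pos _).le
        · rw [← Real.log_le_iff_le_exp (by positivity), Real.log_pow]
          have h2 : (M : ℝ) * Real.log (sp p z) ≤ L p z := by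
            rw [← Real.log_pow]
            exact Real.log_le_log (by positivity) (by linarith)
          have h3 : ((M - 1 : ℕ) : ℝ) = M - 1 := by
            rw [Nat.cast_sub hM]; simp
          rw [h3]
          have h4 : (1 - 1 / (M : ℝ)) = (M - 1) / M := by field_simp
          rw [h4]
          have h5 : (0 : ℝ) ≤ M - 1 := by
            have : (1 : ℝ) ≤ M := by exact_mod_cast hM
            linarith
          have h6 : ((M : ℝ) - 1) * Real.log (sp p z) =
              ((M - 1) / M) * (M * Real.log (sp p z)) := by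
            field_simp
          rw [h6]
          exact mul_le_mul_of_nonneg_left h2 (by positivity)
      · have e : M = 1 := by omega
        subst e
        simp
    have h2 : (1 + sp p z ^ M) ^ 2 = Real.exp (2 * L p z) := by
      rw [← hLe p z, ← Real.exp_nat_mul]
      norm_num
    rw [h2, mul_div_assoc]
    apply mul_le_mul_of_nonneg_left _ (by positivity)
    rw [div_le_iff₀ (Real.exp_pos _), ← Real.exp_add]
    refine h1.trans (le_of_eq ?_)
    congr 1
    ring
  -- comparison with `EE`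
  have hEE : ∀ p z, Real.exp (-((1 + 1 / M) * L p z)) ≤
      Real.exp (a / M * ∑ q ∈ S, (n q : ℝ) * Real.log (C1 p q)) * EE a S n M z := by
    intro p z
    unfold EE v0
    rw [← Real.exp_add]
    apply Real.exp_le_exp.2
    have h1 : ∑ q ∈ S, (n q : ℝ) * L q z ≤
        ∑ q ∈ S, (n q : ℝ) * Real.log (C1 p q) + (∑ q ∈ S, (n q : ℝ)) * L p z := by
      rw [Finset.sum_mul, ← Finset.sum_add_distrib]
      apply Finset.sum_le_sum
      intro q _
      rw [← mul_add]
      exact mul_le_mul_of_nonneg_left (hLL p q z) (Nat.cast_nonneg _)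
    have h2 : a * ∑ q ∈ S, (n q : ℝ) * L q z ≤
        a * ∑ q ∈ S, (n q : ℝ) * Real.log (C1 p q) + (M + 1) * L p z := by
      have h3 := mul_le_mul_of_nonneg_left h1 ha.le
      have h4 := mul_le_mul_of_nonneg_right hN (hL0 p z)
      nlinarith
    have h3 : ∑ q ∈ S, (n q : ℝ) * (1 / M * Real.log (1 + sp q z ^ M)) =
        (∑ q ∈ S, (n q : ℝ) * L q z) / M := by
      rw [Finset.sum_div]
      refine Finset.sum_congr rfl fun q _ => ?_
      simp only [L]
      ring
    rw [h3]
    have h4 : a / M * ∑ q ∈ S, (n q : ℝ) * Real.log (C1 p q) +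
        a * -((∑ q ∈ S, (n q : ℝ) * L q z) / M) =
        (a * ∑ q ∈ S, (n q : ℝ) * Real.log (C1 p q) - a * ∑ q ∈ S, (n q : ℝ) * L q z) / M := by
      field_simp
      ring
    rw [h4, le_div_iff₀ hM0]
    have h5 : -((1 + 1 / (M : ℝ)) * L p z) * M = -((M + 1) * L p z) := by
      field_simp
    rw [h5]
    linarith
  refine ⟨∑ p ∈ S, (n p : ℝ) * (4 * M *
    Real.exp (a / M * ∑ q ∈ S, (n q : ℝ) * Real.log (C1 p q))), fun z => ?_⟩
  unfold kk
  rw [Finset.sum_mul]
  apply Finset.sum_le_sum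
  intro p _
  rw [mul_assoc (n p : ℝ)]
  apply mul_le_mul_of_nonneg_left _ (Nat.cast_nonneg _)
  refine (hterm p z).trans ?_
  rw [mul_assoc (4 * (M : ℝ))]
  exact mul_le_mul_of_nonneg_left (hEE p z) (by positivity)

end Pool.Agent.W120.GS.SB
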