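import Pool.Agent.W117.GS.Stm

/-!
# GS-WB: bounds for `V - v0` and `|g|^2 e^(v0)`
-/

set_option autoImplicit false

namespace Pool.Agent.W120.GS.WB

open Pool.Agent.W117.GS

theorem sp_nonneg (p z : ℝ × ℝ) : 0 ≤ sp p z := by
  unfold sp; positivity

theorem lower {s μ : ℝ} (hs : 0 ≤ s) (hμ : 0 < μ) (hμ1 : μ ≤ 1) {M : ℕ} (hM : 1 ≤ M) :
    -Real.log 2 ≤ 1 / M * Real.log (1 + s ^ M) - Real.log (μ + s) := by
  have hM0 : (0 : ℝ) < M := by exact_mod_cast hM
  have h1 : (1 + s) ^ M ≤ 2 ^ M * (1 + s ^ M) := by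
    have h2 := add_pow_le (zero_le_one) hs M
    rw [one_pow] at h2
    refine h2.trans ?_
    have h3 : (2 : ℝ) ^ (M - 1) ≤ 2 ^ M := pow_le_pow_right₀ (by norm_num) (by omega)
    exact mul_le_mul_of_nonneg_right h3 (by positivity)
  have h2 : (M : ℝ) * Real.log (1 + s) ≤ M * Real.log 2 + Real.log (1 + s ^ M) := by
    have h3 := Real.log_le_log (by positivity) h1
    rw [Real.log_mul (by positivity) (by positivity), Real.log_pow, Real.log_pow] at h3
    exact h3
  have h3 : Real.log (μ + s) ≤ Real.log (1 + s) := Real.log_le_log (by linarith) (by linarith)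
  have h4 : Real.log (1 + s) ≤ Real.log 2 + 1 / M * Real.log (1 + s ^ M) := by
    have h5 : (M : ℝ) * (Real.log 2 + 1 / M * Real.log (1 + s ^ M)) =
        M * Real.log 2 + Real.log (1 + s ^ M) := by
      field_simp
    rw [← h5] at h2
    exact le_of_mul_le_mul_left h2 hM0
  linarith

theorem upper {s μ : ℝ} (hs : 0 ≤ s) (hμ : 0 < μ) (hμ1 : μ ≤ 1) {M : ℕ} (hM : 1 ≤ M) :
    1 / M * Real.log (1 + s ^ M) - Real.log (μ + s) ≤ -Real.log μ := by
  have hM0 : (0 : ℝ) < M := by exact_mod_cast hM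
  have h1 : 1 + s ^ M ≤ (1 + s) ^ M := by
    have := pow_add_pow_le (zero_le_one) hs (n := M) (by omega)
    rwa [one_pow] at this
  have h2 : 1 / M * Real.log (1 + s ^ M) ≤ Real.log (1 + s) := by
    have h3 := Real.log_le_log (by positivity) h1
    rw [Real.log_pow] at h3
    rw [div_mul_eq_mul_div, one_mul, div_le_iff₀ hM0]
    linarith
  have h3 : Real.log (1 + s) + Real.log μ ≤ Real.log (μ + s) := by
    rw [← Real.log_mul (by positivity) hμ.ne']
    apply Real.log_le_log (by positivity)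
    nlinarith
  linarith

theorem wb : PropWB := by
  intro S n M μ hM hμ hμ1
  refine ⟨Real.log 2 + ∑ p ∈ S, (n p : ℝ) * (-Real.log μ), fun z => ?_⟩
  have h1 : VV S n μ z - v0 S n M z = Real.log 2 +
      ∑ p ∈ S, (n p : ℝ) * (1 / M * Real.log (1 + sp p z ^ M) - Real.log (μ + sp p z)) := by
    unfold VV v0
    simp only [mul_sub, Finset.sum_sub_distrib]
    ring
  rw [h1]
  constructor
  · have h2 : ∑ p ∈ S, (n p : ℝ) * (-Real.log 2) ≤
        ∑ p ∈ S, (n p : ℝ) * (1 / M * Real.log (1 + sp p z ^ M) - Real.log (μ + sp p z)) :=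
      Finset.sum_le_sum fun p _ =>
        mul_le_mul_of_nonneg_left (lower (sp_nonneg p z) hμ hμ1 hM) (Nat.cast_nonneg _)
    rw [← Finset.sum_mul] at h2
    have h3 : 0 ≤ Real.log 2 := Real.log_nonneg (by norm_num)
    linarith
  · have h2 : ∑ p ∈ S, (n p : ℝ) * (1 / M * Real.log (1 + sp p z ^ M) - Real.log (μ + sp p z)) ≤
        ∑ p ∈ S, (n p : ℝ) * (-Real.log μ) :=
      Finset.sum_le_sum fun p _ =>
        mul_le_mul_of_nonneg_left (upper (sp_nonneg p z) hμ hμ1 hM) (Nat.cast_nonneg _)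
    linarith

theorem s_le {s : ℝ} (hs : 0 ≤ s) {M : ℕ} (hM : 1 ≤ M) :
    s ≤ Real.exp (1 / M * Real.log (1 + s ^ M)) := by
  have hM0 : (0 : ℝ) < M := by exact_mod_cast hM
  rcases hs.eq_or_lt with h | h
  · rw [← h]; exact (Real.exp_pos _).le
  · rw [← Real.log_le_iff_le_exp h]
    rw [div_mul_eq_mul_div, one_mul, le_div_iff₀ hM0]
    have : Real.log (s ^ M) ≤ Real.log (1 + s ^ M) := Real.log_le_log (by positivity) (by linarith)
    rw [Real.log_pow] at this
    linarith

theorem bb : PropBB := by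
  intro S n M hM z
  have hgg : 0 ≤ gg S n z := Finset.prod_nonneg fun p _ => pow_nonneg (sp_nonneg p z) _
  refine ⟨mul_nonneg hgg (Real.exp_pos _).le, ?_⟩
  have h1 : BB S n M z =
      ∏ p ∈ S, (sp p z * Real.exp (-(1 / M * Real.log (1 + sp p z ^ M)))) ^ n p := by
    unfold BB gg v0
    rw [← Finset.sum_neg_distrib, Real.exp_sum, ← Finset.prod_mul_distrib]
    refine Finset.prod_congr rfl fun p _ => ?_
    rw [mul_pow, ← Real.exp_nat_mul]
    congr 2
    ring
  rw [h1]
  apply Finset.prod_le_one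
  · intro p _
    exact pow_nonneg (mul_nonneg (sp_nonneg p z) (Real.exp_pos _).le) _
  · intro p _
    apply pow_le_one₀ (mul_nonneg (sp_nonneg p z) (Real.exp_pos _).le)
    rw [Real.exp_neg, ← div_eq_mul_inv, div_le_one (Real.exp_pos _)]
    exact s_le (sp_nonneg p z) hM

theorem main : PropWB ∧ PropBB := ⟨wb, bb⟩

end Pool.Agent.W120.GS.WB
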